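import Mathlib

/-!
# An inequality for exterior products in dimension five

For a positive definite matrix `M` of size five, a vector `g` and antisymmetric matrices `W`, `O`
the square of the coefficient of `g ∧ W ∧ O` is at most `⟨M g, g⟩ ⟨Λ²M W, W⟩ ⟨Λ²M O, O⟩ / det M`.
-/

set_option autoImplicit false

namespace Pool.Agent.MP_d90615.T3

open Matrix
open scoped MatrixOrder

/-- The coefficient of `g ∧ W ∧ O`. -/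
def T5 (g : Fin 5 → ℝ) (W O : Matrix (Fin 5) (Fin 5) ℝ) : ℝ :=
  g 0 * (W 1 2 * O 3 4 - W 1 3 * O 2 4 + W 1 4 * O 2 3 + O 1 2 * W 3 4 - O 1 3 * W 2 4 + O 1 4 * W 2 3)
  - g 1 * (W 0 2 * O 3 4 - W 0 3 * O 2 4 + W 0 4 * O 2 3 + O 0 2 * W 3 4 - O 0 3 * W 2 4 + O 0 4 * W 2 3)
  + g 2 * (W 0 1 * O 3 4 - W 0 3 * O 1 4 + W 0 4 * O 1 3 + O 0 1 * W 3 4 - O 0 3 * W 1 4 + O 0 4 * W 1 3)
  - g 3 * (W 0 1 * O 2 4 - W 0 2 * O 1 4 + W 0 4 * O 1 2 + O 0 1 * W 2 4 - O 0 2 * W 1 4 + O 0 4 * W 1 2)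
  + g 4 * (W 0 1 * O 2 3 - W 0 2 * O 1 3 + W 0 3 * O 1 2 + O 0 1 * W 2 3 - O 0 2 * W 1 3 + O 0 3 * W 1 2)

/-- The matrix of `u ∧ v`. -/
def wdg (u v : Fin 5 → ℝ) : Matrix (Fin 5) (Fin 5) ℝ := fun i j => u i * v j - u j * v i

theorem T5_add_left (g : Fin 5 → ℝ) (W W' O : Matrix (Fin 5) (Fin 5) ℝ) :
    T5 g (W + W') O = T5 g W O + T5 g W' O := by
  simp only [T5, Matrix.add_apply]
  ring

theorem T5_add_right (g : Fin 5 → ℝ) (W O O' : Matrix (Fin 5) (Fin 5) ℝ) :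
    T5 g W (O + O') = T5 g W O + T5 g W O' := by
  simp only [T5, Matrix.add_apply]
  ring

theorem T5_wdg (g u v x y : Fin 5 → ℝ) :
    T5 g (wdg u v) (wdg x y) = (Matrix.of ![g, u, v, x, y]).det := by
  simp only [Matrix.det_succ_row_zero, Fin.sum_univ_succ, T5, wdg]
  simp [Fin.succAbove]
  ring

theorem wdg_vecMul (L : Matrix (Fin 5) (Fin 5) ℝ) (u v : Fin 5 → ℝ) :
    Lᵀ * wdg u v * L = wdg (u ᵥ* L) (v ᵥ* L) := by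
  have h1 : ∀ a b : Fin 5 → ℝ, Lᵀ * (Matrix.vecMulVec a b) * L = Matrix.vecMulVec (a ᵥ* L) (b ᵥ* L) := by
    intro a b
    rw [Matrix.mul_vecMulVec, Matrix.vecMulVec_mul, Matrix.mulVec_transpose]
  have h2 : ∀ a b : Fin 5 → ℝ, wdg a b = Matrix.vecMulVec a b - Matrix.vecMulVec b a := by
    intro a b
    ext i j
    simp only [wdg, Matrix.sub_apply, Matrix.vecMulVec_apply]
    ring
  rw [h2, h2, Matrix.mul_sub, Matrix.sub_mul, h1, h1]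

theorem T5_wdg_vecMul (L : Matrix (Fin 5) (Fin 5) ℝ) (g u v x y : Fin 5 → ℝ) :
    T5 (g ᵥ* L) (Lᵀ * wdg u v * L) (Lᵀ * wdg x y * L) = L.det * T5 g (wdg u v) (wdg x y) := by
  rw [wdg_vecMul, wdg_vecMul, T5_wdg, T5_wdg, mul_comm L.det, ← Matrix.det_mul]
  congr 1
  ext i j
  fin_cases i <;> simp [Matrix.mul_apply, Matrix.vecMul, dotProduct]

/-- An antisymmetric matrix as a sum of four exterior products. -/
theorem eq_wdg (W : Matrix (Fin 5) (Fin 5) ℝ) (hW : ∀ i j, W j i = - W i j) :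
    W = wdg ![1, 0, 0, 0, 0] ![0, W 0 1, W 0 2, W 0 3, W 0 4] +
      wdg ![0, 1, 0, 0, 0] ![0, 0, W 1 2, W 1 3, W 1 4] +
      wdg ![0, 0, 1, 0, 0] ![0, 0, 0, W 2 3, W 2 4] +
      wdg ![0, 0, 0, 1, 0] ![0, 0, 0, 0, W 3 4] := by
  have h0 : ∀ i, W i i = 0 := fun i => by linarith [hW i i]
  ext i j
  fin_cases i <;> fin_cases j <;> simp [wdg, h0] <;> exact hW _ _

theorem T5_transform (L : Matrix (Fin 5) (Fin 5) ℝ) (g : Fin 5 → ℝ)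
    (W O : Matrix (Fin 5) (Fin 5) ℝ) (hW : ∀ i j, W j i = - W i j) (hO : ∀ i j, O j i = - O i j) :
    T5 (g ᵥ* L) (Lᵀ * W * L) (Lᵀ * O * L) = L.det * T5 g W O := by
  rw [eq_wdg W hW, eq_wdg O hO]
  simp only [Matrix.mul_add, Matrix.add_mul, T5_add_left, T5_add_right, T5_wdg_vecMul]
  ring

/-- The squared norm of an antisymmetric matrix. -/
def sq2 (W : Matrix (Fin 5) (Fin 5) ℝ) : ℝ :=
  W 0 1 ^ 2 + W 0 2 ^ 2 + W 0 3 ^ 2 + W 0 4 ^ 2 + W 1 2 ^ 2 + W 1 3 ^ 2 + W 1 4 ^ 2 + W 2 3 ^ 2 +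
    W 2 4 ^ 2 + W 3 4 ^ 2

theorem sq2_nonneg (W : Matrix (Fin 5) (Fin 5) ℝ) : 0 ≤ sq2 W := by
  unfold sq2
  positivity

/-- The inequality for the identity matrix. -/
theorem T5_sq_le (g : Fin 5 → ℝ) (W O : Matrix (Fin 5) (Fin 5) ℝ) :
    T5 g W O ^ 2 ≤ (g 0 ^ 2 + g 1 ^ 2 + g 2 ^ 2 + g 3 ^ 2 + g 4 ^ 2) * sq2 W * sq2 O := by
  -- the coefficients of `g ∧ W`
  let a : Fin 10 → ℝ := ![g 2 * W 3 4 - g 3 * W 2 4 + g 4 * W 2 3, -(g 1 * W 3 4 - g 3 * W 1 4 + g 4 * W 1 3),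
    g 1 * W 2 4 - g 2 * W 1 4 + g 4 * W 1 2, -(g 1 * W 2 3 - g 2 * W 1 3 + g 3 * W 1 2),
    g 0 * W 3 4 - g 3 * W 0 4 + g 4 * W 0 3, -(g 0 * W 2 4 - g 2 * W 0 4 + g 4 * W 0 2),
    g 0 * W 2 3 - g 2 * W 0 3 + g 3 * W 0 2, g 0 * W 1 4 - g 1 * W 0 4 + g 4 * W 0 1,
    -(g 0 * W 1 3 - g 1 * W 0 3 + g 3 * W 0 1), g 0 * W 1 2 - g 1 * W 0 2 + g 2 * W 0 1]
  let c : Fin 10 → ℝ := ![O 0 1, O 0 2, O 0 3, O 0 4, O 1 2, O 1 3, O 1 4, O 2 3, O 2 4, O 3 4]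
  have h1 : T5 g W O = ∑ i, a i * c i := by
    simp only [a, c, Fin.sum_univ_succ, T5]
    simp
    ring
  have h2 : ∑ i, c i ^ 2 = sq2 O := by
    simp only [c, Fin.sum_univ_succ, sq2]
    simp
    ring
  have h3 : ∑ i, a i ^ 2 ≤ (g 0 ^ 2 + g 1 ^ 2 + g 2 ^ 2 + g 3 ^ 2 + g 4 ^ 2) * sq2 W := by
    have e1 : (g 0 ^ 2 + g 1 ^ 2 + g 2 ^ 2 + g 3 ^ 2 + g 4 ^ 2) * sq2 W = ∑ i, a i ^ 2 +
        ((g 1 * W 0 1 + g 2 * W 0 2 + g 3 * W 0 3 + g 4 * W 0 4) ^ 2 +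
        (-g 0 * W 0 1 + g 2 * W 1 2 + g 3 * W 1 3 + g 4 * W 1 4) ^ 2 +
        (-g 0 * W 0 2 - g 1 * W 1 2 + g 3 * W 2 3 + g 4 * W 2 4) ^ 2 +
        (-g 0 * W 0 3 - g 1 * W 1 3 - g 2 * W 2 3 + g 4 * W 3 4) ^ 2 +
        (-g 0 * W 0 4 - g 1 * W 1 4 - g 2 * W 2 4 - g 3 * W 3 4) ^ 2) := by
      simp only [a, Fin.sum_univ_succ, sq2]
      simp
      ring
    rw [e1]
    have : 0 ≤ (g 1 * W 0 1 + g 2 * W 0 2 + g 3 * W 0 3 + g 4 * W 0 4) ^ 2 +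
        (-g 0 * W 0 1 + g 2 * W 1 2 + g 3 * W 1 3 + g 4 * W 1 4) ^ 2 +
        (-g 0 * W 0 2 - g 1 * W 1 2 + g 3 * W 2 3 + g 4 * W 2 4) ^ 2 +
        (-g 0 * W 0 3 - g 1 * W 1 3 - g 2 * W 2 3 + g 4 * W 3 4) ^ 2 +
        (-g 0 * W 0 4 - g 1 * W 1 4 - g 2 * W 2 4 - g 3 * W 3 4) ^ 2 := by positivity
    linarith
  rw [h1]
  calc (∑ i, a i * c i) ^ 2 ≤ (∑ i, a i ^ 2) * ∑ i, c i ^ 2 := Finset.sum_mul_sq_le_sq_mul_sq _ _ _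
    _ ≤ _ := by
      rw [h2]
      exact mul_le_mul_of_nonneg_right h3 (sq2_nonneg O)

theorem sq2_eq (W : Matrix (Fin 5) (Fin 5) ℝ) (hW : ∀ i j, W j i = - W i j) :
    2 * sq2 W = (W * Wᵀ).trace := by
  have h0 : ∀ i, W i i = 0 := fun i => by linarith [hW i i]
  simp only [Matrix.trace, Matrix.diag, Matrix.mul_apply, Matrix.transpose_apply, Fin.sum_univ_five,
    sq2, h0, hW 0 1, hW 0 2, hW 0 3, hW 0 4, hW 1 2, hW 1 3, hW 1 4, hW 2 3, hW 2 4, hW 3 4]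
  ring

theorem anti_transform (L W : Matrix (Fin 5) (Fin 5) ℝ) (hW : ∀ i j, W j i = - W i j) (i j : Fin 5) :
    (Lᵀ * W * L) j i = - (Lᵀ * W * L) i j := by
  have h : Wᵀ = -W := by
    ext i j
    rw [Matrix.transpose_apply, Matrix.neg_apply, hW]
  have h2 : (Lᵀ * W * L)ᵀ = -(Lᵀ * W * L) := by
    rw [Matrix.transpose_mul, Matrix.transpose_mul, Matrix.transpose_transpose, h, Matrix.neg_mul,
      Matrix.mul_neg, ← Matrix.mul_assoc]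
  exact congrFun (congrFun h2 i) j

theorem sq2_transform (L W : Matrix (Fin 5) (Fin 5) ℝ) (hW : ∀ i j, W j i = - W i j) :
    2 * sq2 (Lᵀ * W * L) = (L * Lᵀ * W * (L * Lᵀ) * Wᵀ).trace := by
  rw [sq2_eq _ (anti_transform L W hW)]
  rw [Matrix.transpose_mul, Matrix.transpose_mul, Matrix.transpose_transpose]
  rw [show Lᵀ * W * L * (Lᵀ * (Wᵀ * L)) = Lᵀ * (W * L * (Lᵀ * (Wᵀ * L))) by
    simp only [Matrix.mul_assoc]]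
  rw [Matrix.trace_mul_comm]
  rw [show W * L * (Lᵀ * (Wᵀ * L)) * Lᵀ = (W * (L * Lᵀ) * Wᵀ) * (L * Lᵀ) by
    simp only [Matrix.mul_assoc]]
  rw [Matrix.trace_mul_comm]
  simp only [Matrix.mul_assoc]

end Pool.Agent.MP_d90615.T3
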