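import Pool.Agent.Lib.MP_d90615_co.Mg.G024
import Pool.Agent.Lib.MP_d90615_co.Mg.G019

/-! # Bridge from the cone `InO` to the interface `Good` -/

set_option autoImplicit false
set_option linter.unnecessarySeqFocus false
set_option linter.unreachableTactic false
set_option linter.unusedTactic false

namespace Pool.Agent.MP_d90615.T3

open St

/-- The predicate on marked states. -/
def KO (s t : Fin 5 → ℝ) : Prop := InO (wedge (toSt s) (toSt t))

theorem good_O (hpair : ∀ v w, InO v → InO w → 0 ≤ pair v w)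
    (helim : ∀ p1 p2 p3 τ r1 r2 r3 τ' : ℝ, Ok p2 p3 p1 τ → Ok r2 r3 r1 τ' →
      ∀ v, InO v → InO (lift (elim p1 p2 p3 τ r1 r2 r3 τ') v)) : T3.Good KO where
  base := by
    have h : InO (cycB ⟨0, 0, 1, 0, 0, 0, 0, 0, 0, 0⟩) := InO.base.cyc
    have h2 := h.cyc.cyc
    have e : cycB (cycB (cycB ⟨0, 0, 1, 0, 0, 0, 0, 0, 0, 0⟩))
        = wedge (toSt ![1, 0, 0, 0, 0]) (toSt ![1, 1, 0, 0, 0]) := by
      unfold cycB toSt
      ext <;> simp
    unfold KO
    rw [← e]; exact h2
  rot := by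
    intro s t h
    have h1 := InO.cyc (InO.cyc h)
    have e : cycB (cycB (wedge (toSt s) (toSt t)))
        = wedge (toSt ![s 0, s 2, s 3, s 1, s 4]) (toSt ![t 0, t 2, t 3, t 1, t 4]) := by
      unfold cycB toSt
      ext <;> simp
    unfold KO
    rw [← e]; exact h1
  swap := by
    intro s t h
    have h1 := InO.cyc (InO.cyc (InO.swap (InO.cyc h)))
    have e : cycB (cycB (swapB (cycB (wedge (toSt s) (toSt t)))))
        = wedge (toSt ![s 0, s 1, s 3, s 2, s 4]) (toSt ![t 0, t 1, t 3, t 2, t 4]) := by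
      unfold cycB swapB toSt
      ext <;> simp
    unfold KO
    rw [← e]; exact h1
  mul := by
    intro s t q h hq
    unfold KO
    rw [toSt_mulS, toSt_mulS, ← lift_wedge (lin_mul _)]
    exact InO.mul (unm_of_reg hq) h
  elim := by
    intro s t q q' h hq hq'
    obtain ⟨c, p₁, p₂, p₃, τ, hc, h1, h2, h3, ht, hle, rfl⟩ := T3.reg_form hq
    obtain ⟨c', r₁, r₂, r₃, τ', hc', h1', h2', h3', ht', hle', rfl⟩ := T3.reg_form hq'
    unfold KO
    rw [toSt_elimS, toSt_elimS]
    have e : wedge ((c * c') • elim p₁ p₂ p₃ τ r₁ r₂ r₃ τ' (toSt s))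
        ((c * c') • elim p₁ p₂ p₃ τ r₁ r₂ r₃ τ' (toSt t))
        = ((c * c') ^ 2) • lift (elim p₁ p₂ p₃ τ r₁ r₂ r₃ τ') (wedge (toSt s) (toSt t)) := by
      rw [lift_wedge (lin_elim _ _ _ _ _ _ _ _)]
      ext <;> simp <;> ring
    rw [e]
    exact InO.smul (by positivity) (helim _ _ _ _ _ _ _ _ ⟨h2, h3, h1, ht, by nlinarith⟩
      ⟨h2', h3', h1', ht', by nlinarith⟩ _ h)
  pair := by
    intro s t s' t' h h'
    have hp := hpair _ _ h h'
    rw [pair_wedge] at hp
    have tt : ∀ a b : Fin 5 → ℝ, T3.tot (T3.mulS a b) = St.tot (mul (toSt a) (toSt b)) := by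
      intro a b
      simp [T3.tot, St.tot, T3.mulS, toSt]; ring
    rw [tt, tt, tt, tt]
    linarith

end Pool.Agent.MP_d90615.T3
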