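import Pool.Agent.Lib.MP_d90615_co.Mg.G024
import Pool.Agent.Lib.MP_d90615_co.Mg.G019

/-! # (B): elimination of a terminal with two side networks -/

set_option autoImplicit false
set_option maxHeartbeats 4000000
set_option linter.unnecessarySeqFocus false
set_option linter.unreachableTactic false
set_option linter.unusedTactic false

namespace Pool.Agent.MP_d90615.T3

open St

/-- Functions of six real variables. -/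
abbrev F6 := ℝ → ℝ → ℝ → ℝ → ℝ → ℝ → ℝ

/-- The value of `f` at `α E1 + β E2 + γ E3 + δ (E1 + U1) + η (y2 E2 + y3 E3 + s2 U2 + s3 U3)`,
where `E_i = Y_i - U1 - U2 - U3`, `s_i = y1 + y2 + y3 + u_i`. -/
def ev (f : F6) (y1 y2 y3 u2 u3 α β γ δ η : ℝ) : ℝ :=
  f (α + δ) (β + η * y2) (γ + η * y3) (-(α + β + γ) - η * (y2 + y3))
    (-(α + β + γ + δ) + η * (y1 + u2)) (-(α + β + γ + δ) + η * (y1 + u3))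

/-- The form of `core Q t s`. -/
noncomputable def COREF (Q t s : ℝ) (f : F6) : F6 := fun y1 y2 y3 u1 u2 u3 =>
  ev f y1 y2 y3 u2 u3 (Q * (y1 - (y1 + y2 + y3 + u1)) + t * ((y1 + y2 + y3 + u1) - (y1 + y2 + y3 + u2)) + s * ((y1 + y2 + y3 + u1) - (y1 + y2 + y3 + u3))) (-(t * ((y1 + y2 + y3 + u1) - (y1 + y2 + y3 + u2)))) (-(s * ((y1 + y2 + y3 + u1) - (y1 + y2 + y3 + u3)))) (y1 + Q * (y1 + y2 + y3 + u1)) Q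
    + Q * ev f y1 y2 y3 u2 u3 0 0 0 0 1
    - t * ev f y1 y2 y3 u2 u3 0 y1 0 ((y1 + y2 + y3 + u2)) 1
    - s * ev f y1 y2 y3 u2 u3 0 0 y1 ((y1 + y2 + y3 + u3)) 1
    - t * (ev f y1 y2 y3 u2 u3 0 (-(y1 + y2 + y3 + u2)) 0 0 1 - ev f y1 y2 y3 u2 u3 0 0 0 0 1 - ev f y1 y2 y3 u2 u3 0 (-(y1 + y2 + y3 + u2)) 0 0 0)
    - t * (ev f y1 y2 y3 u2 u3 (Q * (y1 + y2 + y3 + u2) + (-(y1 + y2 + y3 + u2))) (-(Q * (y1 + y2 + y3 + u1))) 0 ((y1 + y2 + y3 + u2)) 0 - ev f y1 y2 y3 u2 u3 (Q * (y1 + y2 + y3 + u2)) (-(Q * (y1 + y2 + y3 + u1))) 0 ((y1 + y2 + y3 + u2)) 0 - ev f y1 y2 y3 u2 u3 (-(y1 + y2 + y3 + u2)) 0 0 0 0)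
    - t * (ev f y1 y2 y3 u2 u3 (-(Q * (y1 + y2 + y3 + u2))) (y1 + Q * (y1 + y2 + y3 + u1) + (-(y1 + y2 + y3 + u1))) 0 0 0 - ev f y1 y2 y3 u2 u3 (-(Q * (y1 + y2 + y3 + u2))) (y1 + Q * (y1 + y2 + y3 + u1)) 0 0 0 - ev f y1 y2 y3 u2 u3 0 (-(y1 + y2 + y3 + u1)) 0 0 0)
    - s * (ev f y1 y2 y3 u2 u3 0 0 (-(y1 + y2 + y3 + u3)) 0 1 - ev f y1 y2 y3 u2 u3 0 0 0 0 1 - ev f y1 y2 y3 u2 u3 0 0 (-(y1 + y2 + y3 + u3)) 0 0)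
    - s * (ev f y1 y2 y3 u2 u3 (Q * (y1 + y2 + y3 + u3) + (-(y1 + y2 + y3 + u3))) 0 (-(Q * (y1 + y2 + y3 + u1))) ((y1 + y2 + y3 + u3)) 0 - ev f y1 y2 y3 u2 u3 (Q * (y1 + y2 + y3 + u3)) 0 (-(Q * (y1 + y2 + y3 + u1))) ((y1 + y2 + y3 + u3)) 0 - ev f y1 y2 y3 u2 u3 (-(y1 + y2 + y3 + u3)) 0 0 0 0)
    - s * (ev f y1 y2 y3 u2 u3 (-(Q * (y1 + y2 + y3 + u3))) 0 (y1 + Q * (y1 + y2 + y3 + u1) + (-(y1 + y2 + y3 + u1))) 0 0 - ev f y1 y2 y3 u2 u3 (-(Q * (y1 + y2 + y3 + u3))) 0 (y1 + Q * (y1 + y2 + y3 + u1)) 0 0 - ev f y1 y2 y3 u2 u3 0 0 (-(y1 + y2 + y3 + u1)) 0 0)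
    - t * Q * ev f y1 y2 y3 u2 u3 ((y1 + y2 + y3 + u2)) (-(y1 + y2 + y3 + u1)) 0 0 0
    - s * Q * ev f y1 y2 y3 u2 u3 ((y1 + y2 + y3 + u3)) 0 (-(y1 + y2 + y3 + u1)) 0 0
    + t * s * ev f y1 y2 y3 u2 u3 ((y1 + y2 + y3 + u2) - (y1 + y2 + y3 + u3)) ((y1 + y2 + y3 + u3) - (y1 + y2 + y3 + u1)) ((y1 + y2 + y3 + u1) - (y1 + y2 + y3 + u2)) 0 0

/-- The form of `mul (E p q r t)`. -/
def MULF (p q r t : ℝ) (f : F6) : F6 := fun y1 y2 y3 u1 u2 u3 =>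
  f (y1 + q * (u1 - u3) + r * (u1 - u2))
        (y2 + p * (u2 - u3) - r * (u1 - u2)) (y3 - p * (u2 - u3) - q * (u1 - u3)) u1 u2 u3
      + p * f 0 (y1 + y2 + y3 + u3) (-(y1 + y2 + y3 + u2))
          (u2 - u3) (u2 - u3) (u2 - u3)
      + q * f (-(y1 + y2 + y3 + u3)) 0 (y1 + y2 + y3 + u1)
          (u3 - u1) (u3 - u1) (u3 - u1)
      + r * f (y1 + y2 + y3 + u2) (-(y1 + y2 + y3 + u1)) 0
          (u1 - u2) (u1 - u2) (u1 - u2)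
      - t * f (u2 - u3) (u3 - u1) (u1 - u2) 0 0 0

theorem OG_core (v : Bv) (Q t s a1 a2 a3 n1 n2 n3 : ℝ) : ∃ b1 b2 b3 m1 m2 m3 : ℝ,
    (b1 + b2 + b3 - 2 * (lift (core Q t s) v).ou
      = (Q * (1 + Q) - t - s) * (a1 + a2 + a3 - 2 * v.ou)) ∧
    ∀ y1 y2 y3 u1 u2 u3 : ℝ, OG (lift (core Q t s) v) b1 b2 b3 m1 m2 m3 y1 y2 y3 u1 u2 u3
      = COREF Q t s (OG v a1 a2 a3 n1 n2 n3) y1 y2 y3 u1 u2 u3 := by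
  set C := COREF Q t s (OG v a1 a2 a3 n1 n2 n3) with hC
  refine ⟨(C 1 0 0 1 0 0 - C 1 0 0 0 0 0 - C 0 0 0 1 0 0) / 2,
    (C 0 1 0 0 1 0 - C 0 1 0 0 0 0 - C 0 0 0 0 1 0) / 2,
    (C 0 0 1 0 0 1 - C 0 0 1 0 0 0 - C 0 0 0 0 0 1) / 2,
    C 0 0 0 1 0 0, C 0 0 0 0 1 0, C 0 0 0 0 0 1, ?_, fun y1 y2 y3 u1 u2 u3 => ?_⟩
  · rw [hC]
    unfold COREF ev OG lift core
    simp
    ring
  · rw [hC]
    unfold COREF ev OG lift core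
    simp
    ring

/-- The form of the elimination. -/
noncomputable def ELIMF (p1 p2 Q t r1 r2 s : ℝ) (f : F6) : F6 :=
  MULF 0 r2 p2 0 (COREF Q t s (MULF 0 r1 p1 0 f))

theorem OG_elim (v : Bv) (p1 p2 p3 t r1 r2 r3 s a1 a2 a3 n1 n2 n3 : ℝ)
    (ha : a1 + a2 + a3 = 2 * v.ou) : ∃ b1 b2 b3 m1 m2 m3 : ℝ,
    (b1 + b2 + b3 = 2 * (lift (elim p1 p2 p3 t r1 r2 r3 s) v).ou) ∧
    ∀ y1 y2 y3 u1 u2 u3 : ℝ,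
      OG (lift (elim p1 p2 p3 t r1 r2 r3 s) v) b1 b2 b3 m1 m2 m3 y1 y2 y3 u1 u2 u3
      = ELIMF p1 p2 (p3 + r3) t r1 r2 s (OG v a1 a2 a3 n1 n2 n3) y1 y2 y3 u1 u2 u3 := by
  obtain ⟨b1, b2, b3, m1, m2, m3, h1, e1⟩ := OG_mul v 0 r1 p1 0 a1 a2 a3 n1 n2 n3
  obtain ⟨c1, c2, c3, l1, l2, l3, h2, e2⟩ :=
    OG_core (lift (mul (E 0 r1 p1 0)) v) (p3 + r3) t s b1 b2 b3 m1 m2 m3
  obtain ⟨d1, d2, d3, k1, k2, k3, h3, e3⟩ :=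
    OG_mul (lift (core (p3 + r3) t s) (lift (mul (E 0 r1 p1 0)) v)) 0 r2 p2 0 c1 c2 c3 l1 l2 l3
  have el : lift (elim p1 p2 p3 t r1 r2 r3 s) v
      = lift (mul (E 0 r2 p2 0)) (lift (core (p3 + r3) t s) (lift (mul (E 0 r1 p1 0)) v)) := by
    rw [← lift_comp (lin_core _ _ _), ← lift_comp (lin_mul _)]
    rfl
  refine ⟨d1, d2, d3, k1, k2, k3, ?_, fun y1 y2 y3 u1 u2 u3 => ?_⟩
  · rw [el]
    have h4 : b1 + b2 + b3 - 2 * (lift (mul (E 0 r1 p1 0)) v).ou = 0 := by rw [h1, ha]; ring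
    rw [h4, mul_zero] at h2
    linarith
  · rw [el, e3]
    have f1 : OG (lift (mul (E 0 r1 p1 0)) v) b1 b2 b3 m1 m2 m3
        = MULF 0 r1 p1 0 (OG v a1 a2 a3 n1 n2 n3) := by
      funext x1 x2 x3 x4 x5 x6
      rw [e1]; rfl
    have f2 : OG (lift (core (p3 + r3) t s) (lift (mul (E 0 r1 p1 0)) v)) c1 c2 c3 l1 l2 l3
        = COREF (p3 + r3) t s (MULF 0 r1 p1 0 (OG v a1 a2 a3 n1 n2 n3)) := by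
      funext x1 x2 x3 x4 x5 x6
      rw [e2, f1]
    rw [f2]; rfl

theorem MULF_add (p q r t : ℝ) (f g : F6) (x1 x2 x3 x4 x5 x6 : ℝ) :
    MULF p q r t (fun y1 y2 y3 y4 y5 y6 => f y1 y2 y3 y4 y5 y6 + g y1 y2 y3 y4 y5 y6)
      x1 x2 x3 x4 x5 x6 = MULF p q r t f x1 x2 x3 x4 x5 x6 + MULF p q r t g x1 x2 x3 x4 x5 x6 := by
  unfold MULF; ring

theorem COREF_add (Q t s : ℝ) (f g : F6) (x1 x2 x3 x4 x5 x6 : ℝ) :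
    COREF Q t s (fun y1 y2 y3 y4 y5 y6 => f y1 y2 y3 y4 y5 y6 + g y1 y2 y3 y4 y5 y6)
      x1 x2 x3 x4 x5 x6 = COREF Q t s f x1 x2 x3 x4 x5 x6 + COREF Q t s g x1 x2 x3 x4 x5 x6 := by
  unfold COREF ev; ring

theorem ELIMF_add (p1 p2 Q t r1 r2 s : ℝ) (f g : F6) (x1 x2 x3 x4 x5 x6 : ℝ) :
    ELIMF p1 p2 Q t r1 r2 s (fun y1 y2 y3 y4 y5 y6 => f y1 y2 y3 y4 y5 y6 + g y1 y2 y3 y4 y5 y6)
      x1 x2 x3 x4 x5 x6 = ELIMF p1 p2 Q t r1 r2 s f x1 x2 x3 x4 x5 x6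
        + ELIMF p1 p2 Q t r1 r2 s g x1 x2 x3 x4 x5 x6 := by
  unfold ELIMF
  have e1 : MULF 0 r1 p1 0 (fun y1 y2 y3 y4 y5 y6 => f y1 y2 y3 y4 y5 y6 + g y1 y2 y3 y4 y5 y6)
      = fun y1 y2 y3 y4 y5 y6 => MULF 0 r1 p1 0 f y1 y2 y3 y4 y5 y6
        + MULF 0 r1 p1 0 g y1 y2 y3 y4 y5 y6 := by
    funext y1 y2 y3 y4 y5 y6; exact MULF_add _ _ _ _ _ _ _ _ _ _ _ _
  have e2 : COREF Q t s (fun y1 y2 y3 y4 y5 y6 => MULF 0 r1 p1 0 f y1 y2 y3 y4 y5 y6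
        + MULF 0 r1 p1 0 g y1 y2 y3 y4 y5 y6)
      = fun y1 y2 y3 y4 y5 y6 => COREF Q t s (MULF 0 r1 p1 0 f) y1 y2 y3 y4 y5 y6
        + COREF Q t s (MULF 0 r1 p1 0 g) y1 y2 y3 y4 y5 y6 := by
    funext y1 y2 y3 y4 y5 y6; exact COREF_add _ _ _ _ _ _ _ _ _ _ _
  rw [e1, e2]
  exact MULF_add _ _ _ _ _ _ _ _ _ _ _ _

/-- Linear forms. -/
def sq6 (w : Fin 6 → ℝ) : F6 := fun x1 x2 x3 x4 x5 x6 =>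
  (w 0 * x1 + w 1 * x2 + w 2 * x3 + w 3 * x4 + w 4 * x5 + w 5 * x6) ^ 2

theorem ELIMF_sum (p1 p2 Q t r1 r2 s : ℝ) (x1 x2 x3 x4 x5 x6 : ℝ)
    (hsq : ∀ w : Fin 6 → ℝ, 0 ≤ ELIMF p1 p2 Q t r1 r2 s (sq6 w) x1 x2 x3 x4 x5 x6) :
    ∀ (m : ℕ) (w : Fin m → Fin 6 → ℝ), 0 ≤ ELIMF p1 p2 Q t r1 r2 s
      (fun y1 y2 y3 y4 y5 y6 => ∑ k, sq6 (w k) y1 y2 y3 y4 y5 y6) x1 x2 x3 x4 x5 x6 := by
  intro m
  induction m with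
  | zero =>
    intro w
    have e : ELIMF p1 p2 Q t r1 r2 s
        (fun y1 y2 y3 y4 y5 y6 => ∑ k, sq6 (w k) y1 y2 y3 y4 y5 y6) x1 x2 x3 x4 x5 x6 = 0 := by
      unfold ELIMF MULF COREF ev
      simp
    rw [e]
  | succ m ih =>
    intro w
    have e : (fun y1 y2 y3 y4 y5 y6 => ∑ k, sq6 (w k) y1 y2 y3 y4 y5 y6)
        = fun y1 y2 y3 y4 y5 y6 => sq6 (w 0) y1 y2 y3 y4 y5 y6
          + (fun z1 z2 z3 z4 z5 z6 => ∑ k : Fin m, sq6 (w k.succ) z1 z2 z3 z4 z5 z6)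
            y1 y2 y3 y4 y5 y6 := by
      funext y1 y2 y3 y4 y5 y6
      exact Fin.sum_univ_succ _
    rw [e, ELIMF_add]
    exact add_nonneg (hsq _) (ih _)

end Pool.Agent.MP_d90615.T3
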