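import Pool.Agent.Lib.MP_d90615_co.Mg.G025
import Pool.Agent.Lib.MP_d90615_co.Mg.G023

/-!
# The form of the elimination of a vertex with two stars is nonnegative: main statement
-/

set_option autoImplicit false

namespace Pool.Agent.MP_d90615.T3

open Matrix Filter Topology

/-- The form. -/
def PsiF (QA al be t QB al' be' s kap th g2 g3 h2 h3 n1 n2 n3 k1 k2 k3 m l : ℝ) : ℝ :=
  QA*th^2 + be*g2^2 + al*g3^2 - t*(th+g2+g3)^2 - 2*t*(th*n1+g2*n2+g3*n3)
    + (al*be*n1^2+al*QA*n2^2+be*QA*n3^2 - t*(al*(n1-n2)^2+be*(n3-n1)^2+QA*(n3-n2)^2))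
    + QB*th^2 + be'*h2^2 + al'*h3^2 - s*(th+h2+h3)^2 - 2*s*(th*k1+h2*k2+h3*k3)
    + (al'*be'*k1^2+al'*QB*k2^2+be'*QB*k3^2 - s*(al'*(k1-k2)^2+be'*(k3-k1)^2+QB*(k3-k2)^2))
    + (al*QB*n2^2+be*QB*n3^2+QA*al'*k2^2+QA*be'*k3^2+be*al'*m^2+al*be'*l^2
      - t*(QB*(n3-n2)^2+al'*(k2-m)^2+be'*(l-k3)^2) - s*(al*(l-n2)^2+be*(n3-m)^2+QA*(k2-k3)^2)
      + t*s*(n3-n2+k2-m-k3+l)^2)
    + kap*(g2*(k1-l)+g3*(k1-m)+h2*(n1-m)+h3*(n1-l))

theorem psi_scalar {QA QB x X y Y t s κ : ℝ} (hx : 0 ≤ x) (hy : 0 ≤ y) (ht : 0 ≤ t) (hs : 0 ≤ s)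
    (h1 : 0 ≤ X - t * x) (h2 : 0 ≤ Y - s * y) (h3 : t * (X + t) ≤ QA * (X - t * x))
    (h4 : s * (Y + s) ≤ QB * (Y - s * y)) (hk : κ * (QA + QB) = 2 * t * s) :
    Y * t ^ 2 + X * s ^ 2 + (QA + QB) * κ ^ 2 * (x + y) - t * (x * (κ + s) ^ 2 + y * κ ^ 2) -
      s * (x * κ ^ 2 + y * (κ + t) ^ 2) ≤
    (QA + QB) * (X - t * x) * (Y - s * y) - t * X * (Y - s * y) - s * Y * (X - t * x) := by
  have p1 := mul_nonneg h2 (sub_nonneg.mpr h3)
  have p2 := mul_nonneg h1 (sub_nonneg.mpr h4)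
  have p3 : 0 ≤ κ ^ 2 * ((t + s) * (x + y)) := by positivity
  have e : (QA + QB) * (X - t * x) * (Y - s * y) - t * X * (Y - s * y) - s * Y * (X - t * x) -
      (Y * t ^ 2 + X * s ^ 2 + (QA + QB) * κ ^ 2 * (x + y) - t * (x * (κ + s) ^ 2 + y * κ ^ 2) -
      s * (x * κ ^ 2 + y * (κ + t) ^ 2)) =
      (Y - s * y) * (QA * (X - t * x) - t * (X + t)) +
        (X - t * x) * (QB * (Y - s * y) - s * (Y + s)) + κ ^ 2 * ((t + s) * (x + y)) +
        (2 * t * s - κ * (QA + QB)) * κ * (x + y) := by ring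
  rw [hk] at e
  linarith

theorem psi_strict {Q X x t : ℝ} (hQ : 0 < Q) (hX : 0 < X) (ht : 0 ≤ t)
    (h : t * (X + t) ≤ Q * (X - t * x)) : 0 < X - t * x ∧ 0 < Q * (X - t * x) - t * X := by
  rcases eq_or_lt_of_le ht with h0 | h0
  · rw [← h0]
    constructor
    · linarith
    · have := mul_pos hQ hX
      linarith
  · have h1 : 0 < t * (X + t) := by positivity
    have h2 : 0 < Q * (X - t * x) := lt_of_lt_of_le h1 h
    refine ⟨?_, by nlinarith [mul_pos h0 h0]⟩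
    by_contra hcon
    have := mul_nonneg hQ.le (neg_nonneg.mpr (not_lt.mp hcon))
    linarith

/-- Positive weights. -/
theorem psi_pos {QA al be t QB al' be' s kap : ℝ} (hQA : 0 < QA) (hal : 0 < al) (hbe : 0 < be)
    (ht : 0 ≤ t) (hA : t * (QA * be + QA * al + be * al + t) ≤ QA * be * al)
    (hQB : 0 < QB) (hal' : 0 < al') (hbe' : 0 < be')
    (hs : 0 ≤ s) (hB : s * (QB * be' + QB * al' + be' * al' + s) ≤ QB * be' * al')
    (hk : kap * (QA + QB) = 4 * t * s) (th g2 g3 h2 h3 n1 n2 n3 k1 k2 k3 m l : ℝ) :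
    0 ≤ PsiF QA al be t QB al' be' s kap th g2 g3 h2 h3 n1 n2 n3 k1 k2 k3 m l := by
  have hc3 : t * (al * be + t) ≤ QA * (al * be - t * (al + be)) := by linarith
  have hc4 : s * (al' * be' + s) ≤ QB * (al' * be' - s * (al' + be')) := by linarith
  obtain ⟨a1, a2⟩ := psi_strict hQA (mul_pos hal hbe) ht hc3
  obtain ⟨b1, b2⟩ := psi_strict hQB (mul_pos hal' hbe') hs hc4
  have hk' : kap / 2 * (QA + QB) = 2 * t * s := by linarith
  have hsc := psi_scalar (add_pos hal hbe).le (add_pos hal' hbe').le ht hs a1.le b1.le hc3 hc4 hk'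
  have hdet : 0 < (M5 (QA + QB) be al be' al' t s).det := by
    rw [M5_det]
    have p1 := mul_pos b1 a2
    have p2 := mul_pos a1 b2
    linarith
  have hpsd : (M5 (QA + QB) be al be' al' t s).PosSemidef := by
    refine Matrix.PosSemidef.of_dotProduct_mulVec_nonneg ?_ fun x => ?_
    · ext i j
      fin_cases i <;> fin_cases j <;> simp [M5]
    · rw [star_trivial, M5_form]
      exact add_nonneg (star_form hQA hbe hal ht (by linarith) _ _ _)
        (star_form hQB hbe' hal' hs (by linarith) _ _ _)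
  have key := T5_le hpsd hdet ![th, g2, g3, h2, h3] (W5 n1 n2 n3 k1 k2 k3 m l)
    (O5 t s (kap / 2)) (W5_anti _ _ _ _ _ _ _ _) (O5_anti _ _ _) (by
      rw [O5_trace, M5_det]
      linarith)
  rw [M5_form, W5_trace, T5_eq] at key
  simp only [Matrix.cons_val_zero, Matrix.cons_val_one, Matrix.cons_val] at key
  unfold PsiF
  linarith

/-- Increasing the weights. -/
theorem Ok.add_eps {s1 s2 s3 h : ℝ} (H : Ok s1 s2 s3 h) {ε : ℝ} (hε : 0 < ε) :
    h * ((s1 + ε) * (s2 + ε) + (s1 + ε) * (s3 + ε) + (s2 + ε) * (s3 + ε) + h)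
      ≤ (s1 + ε) * (s2 + ε) * (s3 + ε) := by
  have a0 := H.le
  have a1 := H.le'
  have a2 := H.pair12
  have a3 := H.pair23
  have a4 := H.pair31
  have n1 := H.n1
  have n2 := H.n2
  have n3 := H.n3
  have nh := H.nh
  have b2 : 2 * (h * (s1 + s2 + s3)) ≤ s1 * s2 + s1 * s3 + s2 * s3 := by nlinarith
  have b1 : 3 * h ≤ s1 + s2 + s3 := by
    rcases eq_or_lt_of_le (add_nonneg (add_nonneg n1 n2) n3) with h0 | h0
    · have e1 : s1 = 0 := by linarith
      have e2 : s2 = 0 := by linarith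
      have e3 : s3 = 0 := by linarith
      have hl := H.le
      rw [e1, e2, e3] at hl
      have h2 : h * h ≤ 0 := by nlinarith
      have h3 : h = 0 := mul_self_eq_zero.mp (le_antisymm h2 (mul_self_nonneg h))
      rw [h3]; linarith
    · have h5 : (s1 + s2 + s3) * (3 * h) ≤ (s1 + s2 + s3) * (s1 + s2 + s3) := by
        nlinarith [sq_nonneg (s1 - s2), sq_nonneg (s2 - s3), sq_nonneg (s1 - s3), mul_nonneg n1 n2,
          mul_nonneg n2 n3, mul_nonneg n1 n3]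
      exact le_of_mul_le_mul_left h5 h0
  have e : (s1 + ε) * (s2 + ε) * (s3 + ε)
      - h * ((s1 + ε) * (s2 + ε) + (s1 + ε) * (s3 + ε) + (s2 + ε) * (s3 + ε) + h)
      = (s1 * s2 * s3 - h * (s1 * s2 + s1 * s3 + s2 * s3 + h))
        + ε * ((s1 * s2 + s1 * s3 + s2 * s3) - 2 * (h * (s1 + s2 + s3)))
        + ε ^ 2 * ((s1 + s2 + s3) - 3 * h) + ε ^ 3 := by ring
  have p1 : 0 ≤ ε * ((s1 * s2 + s1 * s3 + s2 * s3) - 2 * (h * (s1 + s2 + s3))) :=
    mul_nonneg hε.le (by linarith)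
  have p2 : 0 ≤ ε ^ 2 * ((s1 + s2 + s3) - 3 * h) := mul_nonneg (by positivity) (by linarith)
  have p3 : 0 ≤ ε ^ 3 := by positivity
  linarith

theorem Ok.zero_one {s1 s2 s3 h : ℝ} (H : Ok s1 s2 s3 h) (h1 : s1 = 0) : h = 0 := by
  have a0 := H.le
  have n2 := H.n2
  have n3 := H.n3
  have nh := H.nh
  rw [h1] at a0
  have p := mul_nonneg nh (mul_nonneg n2 n3)
  have h2 : h * h ≤ 0 := by nlinarith
  exact mul_self_eq_zero.mp (le_antisymm h2 (mul_self_nonneg h))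

/-- **The form is nonnegative**, all weights nonnegative. -/
theorem psi_nonneg {QA al be t QB al' be' s : ℝ} (hA : Ok QA be al t) (hB : Ok QB be' al' s)
    (th g2 g3 h2 h3 n1 n2 n3 k1 k2 k3 m l : ℝ) :
    0 ≤ PsiF QA al be t QB al' be' s (4 * t * s / (QA + QB))
      th g2 g3 h2 h3 n1 n2 n3 k1 k2 k3 m l := by
  rcases eq_or_lt_of_le (add_nonneg hA.n1 hB.n1) with h0 | h0
  · have e1 : QA = 0 := by linarith [hA.n1, hB.n1]
    have e2 : QB = 0 := by linarith [hA.n1, hB.n1]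
    have e3 := hA.zero_one e1
    have e4 := hB.zero_one e2
    have q1 := hA.n2
    have q2 := hA.n3
    have q3 := hB.n2
    have q4 := hB.n3
    rw [e1, e2, e3, e4]
    unfold PsiF
    have : 0 ≤ be * g2 ^ 2 + al * g3 ^ 2 + al * be * n1 ^ 2 + be' * h2 ^ 2 + al' * h3 ^ 2 +
        al' * be' * k1 ^ 2 + be * al' * m ^ 2 + al * be' * l ^ 2 := by positivity
    have e : (4 * (0 : ℝ) * 0 / (0 + 0)) = 0 := by norm_num
    rw [e]
    linarith
  · have hpos : ∀ ε : ℝ, 0 < ε → 0 ≤ PsiF (QA + ε) (al + ε) (be + ε) t (QB + ε) (al' + ε)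
        (be' + ε) s (4 * t * s / (QA + ε + (QB + ε))) th g2 g3 h2 h3 n1 n2 n3 k1 k2 k3 m l := by
      intro ε hε
      have q1 := hA.n1
      have q2 := hA.n2
      have q3 := hA.n3
      have q4 := hB.n1
      have q5 := hB.n2
      have q6 := hB.n3
      have hne : QA + ε + (QB + ε) ≠ 0 := by positivity
      exact psi_pos (by positivity) (by positivity) (by positivity) hA.nh (hA.add_eps hε)
        (by positivity) (by positivity) (by positivity) hB.nh (hB.add_eps hε)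
        (div_mul_cancel₀ _ hne) th g2 g3 h2 h3 n1 n2 n3 k1 k2 k3 m l
    have hc : ContinuousAt (fun ε : ℝ => PsiF (QA + ε) (al + ε) (be + ε) t (QB + ε) (al' + ε)
        (be' + ε) s (4 * t * s / (QA + ε + (QB + ε))) th g2 g3 h2 h3 n1 n2 n3 k1 k2 k3 m l) 0 := by
      have hd : QA + 0 + (QB + 0) ≠ 0 := by simpa using h0.ne'
      have c1 : ContinuousAt (fun ε : ℝ => 4 * t * s / (QA + ε + (QB + ε))) 0 :=
        ContinuousAt.div (by fun_prop) (by fun_prop) hd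
      unfold PsiF
      fun_prop
    have hl := hc.tendsto.mono_left (nhdsWithin_le_nhds (s := Set.Ioi (0 : ℝ)))
    have h1 := ge_of_tendsto hl (by
      filter_upwards [self_mem_nhdsWithin] with ε hε using hpos ε hε)
    simpa using h1

/-- The same with a hypothesis on `kap`. -/
theorem psi_nonneg' {QA al be t QB al' be' s kap : ℝ} (hA : Ok QA be al t) (hB : Ok QB be' al' s)
    (hQ : 0 < QA + QB) (hk : kap * (QA + QB) = 4 * t * s)
    (th g2 g3 h2 h3 n1 n2 n3 k1 k2 k3 m l : ℝ) :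
    0 ≤ PsiF QA al be t QB al' be' s kap th g2 g3 h2 h3 n1 n2 n3 k1 k2 k3 m l := by
  have e : kap = 4 * t * s / (QA + QB) := by rw [← hk, mul_div_assoc, div_self hQ.ne', mul_one]
  rw [e]
  exact psi_nonneg hA hB th g2 g3 h2 h3 n1 n2 n3 k1 k2 k3 m l

end Pool.Agent.MP_d90615.T3
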