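import Mathlib
import Pool.Agent.Lib.MP_d90615_co.Cycle
import Pool.Agent.Lib.MP_d90615_co.CL.Law
import Pool.Agent.Lib.MP_d90615_co.Mg.G022
import Pool.Agent.Lib.MP_d90615_co.Mg.G021

/-!
Pieces attached at three vertices, and an elimination order of width three of the rest.
-/

set_option autoImplicit false
set_option linter.unusedSectionVars false

namespace Pool.Agent.T3P

open Finset Pool.Agent.Lib.MP_d90615_co Pool.Agent.CL
open scoped Classical

attribute [-instance] instDecidableEqSum instDecidableEqProd Subtype.instDecidableEq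

variable {V E K I : Type*} [Fintype V] [Fintype E] [Fintype K] [Fintype I]

/-- The attachment set of piece `k`, completed by extra vertices `(k, i)` to three vertices. -/
noncomputable def att3 (A : K → Finset V) (k : K) (i : Fin 3) : V ⊕ (K × Fin 3) :=
  if h : i.val < (A k).card then Sum.inl ((A k).equivFin.symm ⟨i.val, h⟩).1 else Sum.inr (k, i)

lemma att3_inl {A : K → Finset V} {k : K} {i : Fin 3} {a : V} (h : att3 A k i = Sum.inl a) :
    a ∈ A k := by
  unfold att3 at h
  split_ifs at h with h1
  rw [← Sum.inl.inj h]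
  exact ((A k).equivFin.symm ⟨i.val, h1⟩).2

lemma att3_inr {A : K → Finset V} {k : K} {i : Fin 3} {q : K × Fin 3}
    (h : att3 A k i = Sum.inr q) : q = (k, i) := by
  unfold att3 at h
  split_ifs at h with h1
  exact (Sum.inr.inj h).symm

lemma att3_inj (A : K → Finset V) (k : K) : Function.Injective (att3 A k) := by
  intro i j hij
  unfold att3 at hij
  split_ifs at hij with h1 h2 h2
  · have h3 := (A k).equivFin.symm.injective (Subtype.ext (Sum.inl.inj hij))
    exact Fin.ext (by simpa using h3)
  · have h3 := Sum.inr.inj hij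
    exact (Prod.mk.inj h3).2

lemma att3_surj {A : K → Finset V} {k : K} (hA : (A k).card ≤ 3) {a : V} (ha : a ∈ A k) :
    ∃ i, Sum.inl a = att3 A k i := by
  have h1 := ((A k).equivFin ⟨a, ha⟩).isLt
  refine ⟨⟨((A k).equivFin ⟨a, ha⟩).val, lt_of_lt_of_le h1 hA⟩, ?_⟩
  unfold att3
  rw [dif_pos h1]
  congr 1
  simp

/-- The order: first the new vertices, then the extra vertices, then the old ones. -/
noncomputable def ord (r : V → ℕ) : (V ⊕ (K × Fin 3)) ⊕ K → ℕ
  | .inr k => (Fintype.equivFin K k).val
  | .inl (.inr q) => Fintype.card K + (Fintype.equivFin (K × Fin 3) q).val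
  | .inl (.inl v) => Fintype.card K + Fintype.card (K × Fin 3) + r v

/-- The sets of later neighbours. -/
noncomputable def lat (r : V → ℕ) (P : V → Finset V) (A : K → Finset V) :
    (V ⊕ (K × Fin 3)) ⊕ K → Finset ((V ⊕ (K × Fin 3)) ⊕ K)
  | .inr k => univ.image fun i => Sum.inl (att3 A k i)
  | .inl (.inr q) => (univ.image fun i => (Sum.inl (att3 A q.1 i) : (V ⊕ (K × Fin 3)) ⊕ K)).filter
      fun x => ord (K := K) r (.inl (.inr q)) < ord r x
  | .inl (.inl v) => (P v).image fun u => Sum.inl (Sum.inl u)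

lemma ord_inj {r : V → ℕ} (hr : Function.Injective r) :
    Function.Injective (ord (K := K) r) := by
  have hK : ∀ k : K, (Fintype.equivFin K k).val < Fintype.card K := fun k => Fin.isLt _
  have hD : ∀ q : K × Fin 3, (Fintype.equivFin (K × Fin 3) q).val < Fintype.card (K × Fin 3) :=
    fun q => Fin.isLt _
  rintro ((u | p) | k) ((v | q) | l) huv
  · simp only [ord] at huv
    rw [hr (by omega : r u = r v)]
  · simp only [ord] at huv
    have := hD q
    omega
  · simp only [ord] at huv
    have := hK l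
    omega
  · simp only [ord] at huv
    have := hD p
    omega
  · simp only [ord] at huv
    have h1 : (Fintype.equivFin (K × Fin 3) p).val = (Fintype.equivFin (K × Fin 3) q).val := by
      omega
    rw [(Fintype.equivFin (K × Fin 3)).injective (Fin.ext h1)]
  · simp only [ord] at huv
    have := hK l
    omega
  · simp only [ord] at huv
    have := hK k
    omega
  · simp only [ord] at huv
    have := hK k
    omega
  · simp only [ord] at huv
    rw [(Fintype.equivFin K).injective (Fin.ext huv)]

/-- Two attachment vertices of the same piece: the later one is a later neighbour. -/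
lemma key {r : V → ℕ} {P : V → Finset V} {A : K → Finset V}
    (hcl : ∀ k, ∀ a ∈ A k, ∀ b ∈ A k, r a < r b → b ∈ P a) (k : K) (i j : Fin 3)
    (h : ord (K := K) r (.inl (att3 A k i)) < ord (K := K) r (.inl (att3 A k j))) :
    (Sum.inl (att3 A k j) : (V ⊕ (K × Fin 3)) ⊕ K) ∈ lat r P A (.inl (att3 A k i)) := by
  rcases hi : att3 A k i with a | q
  · rcases hj : att3 A k j with b | q'
    · rw [hi, hj] at h
      simp only [ord] at h
      simp only [lat]
      exact mem_image_of_mem _ (hcl k a (att3_inl hi) b (att3_inl hj) (by omega))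
    · rw [hi, hj] at h
      simp only [ord] at h
      have := (Fintype.equivFin (K × Fin 3) q').isLt
      omega
  · rw [hi] at h
    have hq := att3_inr hi
    simp only [lat]
    rw [mem_filter]
    refine ⟨?_, h⟩
    rw [hq]
    exact mem_image_of_mem _ (mem_univ j)

/-- The elimination order of the reduced multigraph. -/
theorem ord_reduced {ends : E → Sym2 V} {κ : V → Option K} {A : K → Finset V}
    {r : V → ℕ} {P : V → Finset V} (hr : Function.Injective r) (hP : ∀ v, (P v).card ≤ 3)
    (hlat : ∀ v, ∀ u ∈ P v, r v < r u) (hcq : ∀ v, ∀ u ∈ P v, ∀ x ∈ P v, r u < r x → x ∈ P u)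
    (hcl : ∀ k, ∀ a ∈ A k, ∀ b ∈ A k, r a < r b → b ∈ P a)
    (hed : ∀ g, Kept ends κ g → ∀ a b, ends g = s(a, b) → r a < r b → b ∈ P a) :
    T3.Ord3 (CL.reduced (fun g => (ends g).map (Sum.inl : V → V ⊕ (K × Fin 3)))
      (Sum.elim κ fun _ => none) (att3 A)) (ord r) (lat r P A) := by
  have hKl : ∀ (k : K) (y : V ⊕ (K × Fin 3)),
      ord (K := K) r (.inr k) < ord (K := K) r (.inl y) := by
    rintro k (v | q)
    · simp only [ord]
      have := (Fintype.equivFin K k).isLt
      omega
    · simp only [ord]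
      have := (Fintype.equivFin K k).isLt
      omega
  refine ⟨ord_inj hr, ?_, ?_, ?_, ?_⟩
  · rintro ((v | q) | k)
    · simp only [lat]
      exact le_trans card_image_le (hP v)
    · simp only [lat]
      exact le_trans (card_filter_le _ _) (le_trans card_image_le (by simp))
    · simp only [lat]
      exact le_trans card_image_le (by simp)
  · rintro ((v | q) | k) u hu
    · simp only [lat] at hu
      obtain ⟨y, hy, rfl⟩ := mem_image.mp hu
      simp only [ord]
      have := hlat v y hy
      omega
    · simp only [lat] at hu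
      exact (mem_filter.mp hu).2
    · simp only [lat] at hu
      obtain ⟨i, _, rfl⟩ := mem_image.mp hu
      exact hKl k _
  · rintro ((v | q) | k) u hu x hx hux
    · simp only [lat] at hu hx
      obtain ⟨y, hy, rfl⟩ := mem_image.mp hu
      obtain ⟨z, hz, rfl⟩ := mem_image.mp hx
      simp only [ord] at hux
      simp only [lat]
      exact mem_image_of_mem _ (hcq v y hy z hz (by omega))
    · simp only [lat] at hu hx
      obtain ⟨i, _, rfl⟩ := mem_image.mp (mem_filter.mp hu).1
      obtain ⟨j, _, rfl⟩ := mem_image.mp (mem_filter.mp hx).1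
      exact key hcl q.1 i j hux
    · simp only [lat] at hu hx
      obtain ⟨i, _, rfl⟩ := mem_image.mp hu
      obtain ⟨j, _, rfl⟩ := mem_image.mp hx
      exact key hcl k i j hux
  · rintro (⟨g, hg⟩ | ⟨k, j⟩) u v huv hlt
    · simp only [CL.reduced] at huv
      obtain ⟨p, q, hpq⟩ : ∃ p q, ends g = s(p, q) := by
        induction h : ends g using Sym2.ind with
        | _ p q => exact ⟨p, q, rfl⟩
      have hg' : Kept ends κ g := by
        intro y hy
        have := hg (Sum.inl y) (Sym2.mem_map.mpr ⟨y, hy, rfl⟩)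
        simpa using this
      rw [hpq, Sym2.map_mk, Sym2.map_mk] at huv
      rcases Sym2.eq_iff.mp huv with ⟨h1, h2⟩ | ⟨h1, h2⟩
      · subst h1
        subst h2
        simp only [ord] at hlt
        simp only [lat]
        exact mem_image_of_mem _ (hed g hg' p q hpq (by omega))
      · subst h1
        subst h2
        simp only [ord] at hlt
        simp only [lat]
        exact mem_image_of_mem _ (hed g hg' q p (by rw [hpq, Sym2.eq_swap]) (by omega))
    · have star : ∀ i : Fin 3, s((Sum.inl (att3 A k i) : (V ⊕ (K × Fin 3)) ⊕ K), Sum.inr k) =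
          s(u, v) → v ∈ lat r P A u := by
        intro i h
        rcases Sym2.eq_iff.mp h with ⟨h1, h2⟩ | ⟨h1, h2⟩
        · subst h1
          subst h2
          exact absurd (hKl k (att3 A k i)) (by omega)
        · subst h1
          subst h2
          simp only [lat]
          exact mem_image_of_mem _ (mem_univ i)
      have tri : ∀ i i' : Fin 3, s((Sum.inl (att3 A k i) : (V ⊕ (K × Fin 3)) ⊕ K),
          Sum.inl (att3 A k i')) = s(u, v) → v ∈ lat r P A u := by
        intro i i' h
        rcases Sym2.eq_iff.mp h with ⟨h1, h2⟩ | ⟨h1, h2⟩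
        · subst h1
          subst h2
          exact key hcl k i i' hlt
        · subst h1
          subst h2
          exact key hcl k i' i hlt
      fin_cases j
      · exact star 0 huv
      · exact star 1 huv
      · exact star 2 huv
      · exact tri 0 1 huv
      · exact tri 1 2 huv
      · exact tri 0 2 huv

/-- The sum over the forests with the property `p`. -/
noncomputable def num (ends : E → Sym2 V) (w : E → ℝ) (p : Finset E → Prop) : ℝ :=
  ∑ F : Finset E, if Forest ends F ∧ p F then ∏ g ∈ F, w g else 0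

lemma num_eq {E V : Type*} [Fintype E] (ends : E → Sym2 V) (hloop : ∀ g, ¬ (ends g).IsDiag)
    (w : E → ℝ) (p : Finset E → Prop) : T3.num ends w p =
      ∑ F : Finset E, if Forest ends F ∧ p F then ∏ g ∈ F, w g else 0 := by
  rw [T3.num, Finset.filter_filter, Finset.sum_filter]
  refine Finset.sum_congr rfl fun F _ => ?_
  simp only [forest_iff hloop F]

lemma reduced_loopless {ends : E → Sym2 V} (hloop : ∀ g, ¬ (ends g).IsDiag)
    (κ : V → Option K) (T : K → Fin 3 → V) (hT : ∀ k, Function.Injective (T k)) :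
    ∀ g, ¬ (CL.reduced ends κ T g).IsDiag := by
  rintro (g | ⟨k, j⟩)
  · intro h
    refine hloop g.1 ?_
    have h' : (Sym2.map Sum.inl (ends g.1) : Sym2 (V ⊕ K)).IsDiag := h
    revert h'
    induction ends g.1 using Sym2.ind with
    | _ a b => simp
  · fin_cases j <;> simp [CL.reduced] <;> intro h <;> exact absurd (hT k h) (by decide)

/-- **Negative correlation of kept edges**, if the kept part with the attachment sets has
tree-width at most three. -/
theorem main {T : SimpleGraph I} (hT : T.IsTree) (ends : E → Sym2 V)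
    (hloop : ∀ g, ¬ (ends g).IsDiag) (w : E → ℝ) (hw : ∀ g, 0 ≤ w g)
    (κ : V → Option K) (A : K → Finset V) (hA : ∀ k, (A k).card ≤ 3)
    (hAκ : ∀ k, ∀ v ∈ A k, κ v = none)
    (hκ : ∀ g, ∀ u ∈ ends g, ∀ v ∈ ends g, ∀ k, κ u = some k → κ v = some k ∨ v ∈ A k)
    (B : I → Finset V) (hB : ∀ i, (B i).card ≤ 4)
    (hBE : ∀ g, Kept ends κ g → ∃ i, ∀ v ∈ ends g, v ∈ B i)
    (hBA : ∀ k, ∃ i, A k ⊆ B i)
    (hBC : ∀ v, (T.induce {i | v ∈ B i}).Preconnected) (e f : E) (he : Kept ends κ e)
    (hf : Kept ends κ f) (hef : e ≠ f) :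
    T3.num ends w (fun F => e ∈ F ∧ f ∈ F) / T3.num ends w (fun _ => True) ≤
      T3.num ends w (fun F => e ∈ F) / T3.num ends w (fun _ => True) *
        (T3.num ends w (fun F => f ∈ F) / T3.num ends w (fun _ => True)) := by
  -- the completed graph of the bags
  obtain ⟨r, P, hP⟩ := T3.ord_of_td hT (fun s : {s : Sym2 V // ∃ i, ∀ v ∈ s, v ∈ B i} => s.1) B hB
    (fun s => s.2) hBC
  have hbag : ∀ i a b, a ∈ B i → b ∈ B i → r a < r b → b ∈ P a := by
    intro i a b ha hb hab
    refine hP.edge ⟨s(a, b), i, ?_⟩ a b rfl hab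
    intro v hv
    rcases Sym2.mem_iff.mp hv with rfl | rfl
    · exact ha
    · exact hb
  have hcl : ∀ k, ∀ a ∈ A k, ∀ b ∈ A k, r a < r b → b ∈ P a := by
    intro k a ha b hb hab
    obtain ⟨i, hi⟩ := hBA k
    exact hbag i a b (hi ha) (hi hb) hab
  have hed : ∀ g, Kept ends κ g → ∀ a b, ends g = s(a, b) → r a < r b → b ∈ P a := by
    intro g hg a b hab hlt
    obtain ⟨i, hi⟩ := hBE g hg
    exact hbag i a b (hi a (by rw [hab]; exact Sym2.mem_mk_left a b))
      (hi b (by rw [hab]; exact Sym2.mem_mk_right a b)) hlt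
  have hord := ord_reduced (ends := ends) (κ := κ) hP.inj hP.card hP.later hP.clique hcl hed
  -- the graph with the extra vertices
  set ends' : E → Sym2 (V ⊕ (K × Fin 3)) := fun g => (ends g).map Sum.inl with hends'
  set κ' : V ⊕ (K × Fin 3) → Option K := Sum.elim κ fun _ => none with hκ'
  have hloop' : ∀ g, ¬ (ends' g).IsDiag := by
    intro g hg
    refine hloop g ?_
    have h' : (Sym2.map (Sum.inl : V → V ⊕ (K × Fin 3)) (ends g)).IsDiag := hg
    revert h'
    induction ends g using Sym2.ind with
    | _ a b => simp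
  have hTκ : ∀ k i, κ' (att3 A k i) = none := by
    intro k i
    rcases hi : att3 A k i with a | q
    · exact hAκ k a (att3_inl hi)
    · rfl
  have hκκ : ∀ g, ∀ u ∈ ends' g, ∀ v ∈ ends' g, ∀ k, κ' u = some k →
      κ' v = some k ∨ ∃ i, v = att3 A k i := by
    intro g u hu v hv k hk
    obtain ⟨a, ha, rfl⟩ := Sym2.mem_map.mp hu
    obtain ⟨b, hb, rfl⟩ := Sym2.mem_map.mp hv
    rcases hκ g a ha b hb k hk with h | h
    · exact Or.inl h
    · exact Or.inr (att3_surj (hA k) h)
  obtain ⟨c, u, hc, hu, hlaw⟩ := CL.law ends' w hw κ' (att3 A) (att3_inj A) hTκ hκκ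
  have hker : ∀ g, Kept ends κ g → Kept ends' κ' g := by
    intro g hg v hv
    obtain ⟨a, ha, rfl⟩ := Sym2.mem_map.mp hv
    exact hg a ha
  have hloopR := reduced_loopless hloop' κ' (att3 A) (att3_inj A)
  set wR : {g // Kept ends' κ' g} ⊕ (K × Fin 6) → ℝ := Sum.elim (fun g => w g.1) u with hwR
  have hwR0 : ∀ g, 0 ≤ wR g := by
    rintro (g | q)
    · exact hw g.1
    · exact hu q
  set e' : {g // Kept ends' κ' g} := ⟨e, hker e he⟩ with he'
  set f' : {g // Kept ends' κ' g} := ⟨f, hker f hf⟩ with hf'
  have hef' : (Sum.inl e' : {g // Kept ends' κ' g} ⊕ (K × Fin 6)) ≠ Sum.inl f' := by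
    intro h
    exact hef (congrArg Subtype.val (Sum.inl.inj h))
  have hnc := T3.num_of_ncz hloopR hwR0 hef'
    (T3.ncz_of_ord Pool.Agent.MP_d90615.T3.good.w hloopR hord (fun h => h.elim) hwR0 hef')
  -- the law
  have h1 : ∀ (p : Finset {g // Kept ends' κ' g} → Prop) (p' : Finset E → Prop)
      (p'' : Finset ({g // Kept ends' κ' g} ⊕ (K × Fin 6)) → Prop),
      (∀ F : Finset E, p' F ↔ p (F.subtype (Kept ends' κ'))) → (∀ F, p'' F ↔ p F.toLeft) →
      T3.num ends w p' = c * T3.num (CL.reduced ends' κ' (att3 A)) wR p'' := by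
    intro p p' p'' hp' hp''
    rw [num_eq ends hloop, num_eq _ hloopR]
    have h2 := hlaw p
    simp only [← hp', ← hp''] at h2
    rw [← h2]
    refine Finset.sum_congr rfl fun F _ => ?_
    have h3 : Forest ends' F ↔ Forest ends F := forest_vmap Sum.inl_injective F
    simp only [h3]
  have hm : ∀ (g : {g // Kept ends' κ' g}) (F : Finset E),
      g.1 ∈ F ↔ g ∈ F.subtype (Kept ends' κ') := by
    intro g F
    rw [Finset.mem_subtype]
  have hm' : ∀ (g : {g // Kept ends' κ' g}) (F : Finset ({g // Kept ends' κ' g} ⊕ (K × Fin 6))),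
      Sum.inl g ∈ F ↔ g ∈ F.toLeft := by
    intro g F
    rw [Finset.mem_toLeft]
  have k0 := h1 (fun _ => True) (fun _ => True) (fun _ => True) (fun _ => Iff.rfl)
    (fun _ => Iff.rfl)
  have k1 := h1 (fun S => e' ∈ S ∧ f' ∈ S) (fun F => e ∈ F ∧ f ∈ F)
    (fun F => Sum.inl e' ∈ F ∧ Sum.inl f' ∈ F)
    (fun F => and_congr (hm e' F) (hm f' F)) (fun F => and_congr (hm' e' F) (hm' f' F))
  have k2 := h1 (fun S => e' ∈ S) (fun F => e ∈ F) (fun F => Sum.inl e' ∈ F)
    (fun F => hm e' F) (fun F => hm' e' F)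
  have k3 := h1 (fun S => f' ∈ S) (fun F => f ∈ F) (fun F => Sum.inl f' ∈ F)
    (fun F => hm f' F) (fun F => hm' f' F)
  rw [k0, k1, k2, k3, mul_div_mul_left _ _ hc.ne', mul_div_mul_left _ _ hc.ne',
    mul_div_mul_left _ _ hc.ne']
  exact hnc

end Pool.Agent.T3P
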