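import Mathlib
import Pool.Agent.Lib.MP_d90615_co.T3.Pieces

/-!
Tree decompositions of arbitrary multigraphs with a subtree of small bags and small adhesion.
-/

set_option autoImplicit false

namespace Pool.Agent.T3P

open Finset Pool.Agent.Lib.MP_d90615_co Pool.Agent.CL
open scoped Classical

variable {V E I : Type*} [Fintype V] [Fintype E] [Fintype I]

/-- At most one edge of a tree joins a connected set `S` and a component of its complement. -/
lemma tree_edge_unique {I : Type*} {T : SimpleGraph I} (hT : T.IsTree) {S : Set I}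
    (hS : (T.induce S).Preconnected) (C : (T.induce Sᶜ).ConnectedComponent)
    {c p c' p' : I} (hc : c ∈ Sᶜ) (hc' : c' ∈ Sᶜ) (hp : p ∈ S) (hp' : p' ∈ S)
    (hcC : (T.induce Sᶜ).connectedComponentMk ⟨c, hc⟩ = C)
    (hcC' : (T.induce Sᶜ).connectedComponentMk ⟨c', hc'⟩ = C)
    (h : T.Adj c p) (h' : T.Adj c' p') : c = c' ∧ p = p' := by
  by_contra hne
  have hb := (SimpleGraph.isAcyclic_iff_forall_adj_isBridge.mp hT.isAcyclic) h
  rw [SimpleGraph.isBridge_iff] at hb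
  apply hb
  have h1 : (T.deleteEdges {s(c, p)}).Reachable c c' := by
    have hr : (T.induce Sᶜ).Reachable ⟨c, hc⟩ ⟨c', hc'⟩ :=
      SimpleGraph.ConnectedComponent.exact (hcC.trans hcC'.symm)
    exact hr.map (⟨Subtype.val, by
      intro a b hab
      rw [SimpleGraph.deleteEdges_adj]
      refine ⟨hab, ?_⟩
      intro hm
      rcases Sym2.eq_iff.mp (Set.mem_singleton_iff.mp hm) with ⟨_, h2⟩ | ⟨h1, _⟩
      · exact b.2 (h2 ▸ hp)
      · exact a.2 (h1 ▸ hp)⟩ : (T.induce Sᶜ) →g T.deleteEdges {s(c, p)})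
  have h2 : (T.deleteEdges {s(c, p)}).Adj c' p' := by
    rw [SimpleGraph.deleteEdges_adj]
    refine ⟨h', ?_⟩
    intro hm
    rcases Sym2.eq_iff.mp (Set.mem_singleton_iff.mp hm) with ⟨h2, h3⟩ | ⟨h2, h3⟩
    · exact hne ⟨h2.symm, h3.symm⟩
    · exact hc' (h2 ▸ hp)
  have h3 : (T.deleteEdges {s(c, p)}).Reachable p' p := by
    have hr : (T.induce S).Reachable ⟨p', hp'⟩ ⟨p, hp⟩ := hS _ _
    exact hr.map (⟨Subtype.val, by
      intro a b hab
      rw [SimpleGraph.deleteEdges_adj]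
      refine ⟨hab, ?_⟩
      intro hm
      rcases Sym2.eq_iff.mp (Set.mem_singleton_iff.mp hm) with ⟨h1, _⟩ | ⟨_, h2⟩
      · exact hc (h1 ▸ a.2)
      · exact hc (h2 ▸ b.2)⟩ : (T.induce S) →g T.deleteEdges {s(c, p)})
  exact (h1.trans h2.reachable).trans h3

/-- **Negative correlation** of the edges in a subtree `S` of bags with at most four vertices, if
the adhesion sets of the edges of the tree that leave `S` have at most three vertices. -/
theorem adh {T : SimpleGraph I} (hT : T.IsTree) (ends : E → Sym2 V)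
    (hloop : ∀ g, ¬ (ends g).IsDiag) (w : E → ℝ) (hw : ∀ g, 0 ≤ w g)
    (B : I → Finset V) (hBE : ∀ g, ∃ i, ∀ v ∈ ends g, v ∈ B i)
    (hBC : ∀ v, (T.induce {i | v ∈ B i}).Preconnected) (S : Set I)
    (hS : (T.induce S).Preconnected) (h4 : ∀ i ∈ S, (B i).card ≤ 4)
    (h3 : ∀ i ∈ S, ∀ j ∉ S, T.Adj i j → (B i ∩ B j).card ≤ 3) (e f : E) (hef : e ≠ f)
    (he : ∃ i ∈ S, ∀ v ∈ ends e, v ∈ B i) (hf : ∃ i ∈ S, ∀ v ∈ ends f, v ∈ B i) :
    T3.num ends w (fun F => e ∈ F ∧ f ∈ F) / T3.num ends w (fun _ => True) ≤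
      T3.num ends w (fun F => e ∈ F) / T3.num ends w (fun _ => True) *
        (T3.num ends w (fun F => f ∈ F) / T3.num ends w (fun _ => True)) := by
  have : Fintype (T.induce Sᶜ).ConnectedComponent := Fintype.ofFinite _
  set Kp : V → Prop := fun v => ∃ s ∈ S, v ∈ B s with hKp
  -- a vertex outside the bags of `S`
  have hout : ∀ u, ¬ Kp u → ∀ k, u ∈ B k → k ∈ Sᶜ := fun u hu k hk hs => hu ⟨k, hs, hk⟩
  have hsame : ∀ u (hu : ¬ Kp u) k (hk : u ∈ B k) i (hi : u ∈ B i),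
      (T.induce Sᶜ).connectedComponentMk ⟨k, hout u hu k hk⟩ =
        (T.induce Sᶜ).connectedComponentMk ⟨i, hout u hu i hi⟩ := by
    intro u hu k hk i hi
    have hr : (T.induce {i | u ∈ B i}).Reachable ⟨k, hk⟩ ⟨i, hi⟩ := hBC u _ _
    exact SimpleGraph.ConnectedComponent.sound (hr.map (⟨fun x => ⟨x.1, hout u hu x.1 x.2⟩, by
      intro a b hab
      exact hab⟩ : (T.induce {i | u ∈ B i}) →g (T.induce Sᶜ)))
  set κ : V → Option (T.induce Sᶜ).ConnectedComponent := fun v =>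
    if h : ¬ Kp v ∧ ∃ k, v ∈ B k then
      some ((T.induce Sᶜ).connectedComponentMk ⟨h.2.choose, hout v h.1 _ h.2.choose_spec⟩)
    else none with hκdef
  have hκ1 : ∀ v, Kp v → κ v = none := by
    intro v hv
    simp only [hκdef]
    rw [dif_neg]
    rintro ⟨h, _⟩
    exact h hv
  have hκ2 : ∀ v (hv : ¬ Kp v) k (hk : v ∈ B k),
      κ v = some ((T.induce Sᶜ).connectedComponentMk ⟨k, hout v hv k hk⟩) := by
    intro v hv k hk
    have h : ¬ Kp v ∧ ∃ k, v ∈ B k := ⟨hv, k, hk⟩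
    simp only [hκdef]
    rw [dif_pos h]
    rw [hsame v hv _ h.2.choose_spec k hk]
  set A : (T.induce Sᶜ).ConnectedComponent → Finset V := fun C => univ.filter fun v =>
    Kp v ∧ ∃ k, ∃ hk : k ∈ Sᶜ, (T.induce Sᶜ).connectedComponentMk ⟨k, hk⟩ = C ∧ v ∈ B k with hA
  have hAm : ∀ C v, v ∈ A C ↔ Kp v ∧
      ∃ k, ∃ hk : k ∈ Sᶜ, (T.induce Sᶜ).connectedComponentMk ⟨k, hk⟩ = C ∧ v ∈ B k := by
    intro C v
    simp only [hA, mem_filter, mem_univ, true_and]
  -- the edge of the tree between `S` and a component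
  have hbd : ∀ C, ∀ v ∈ A C, ∃ c p, ∃ hc : c ∈ Sᶜ, p ∈ S ∧
      (T.induce Sᶜ).connectedComponentMk ⟨c, hc⟩ = C ∧ T.Adj c p ∧ v ∈ B c ∧ v ∈ B p := by
    intro C v hv
    obtain ⟨⟨s, hs, hvs⟩, k, hk, hkC, hvk⟩ := (hAm C v).mp hv
    obtain ⟨W⟩ : (T.induce {i | v ∈ B i}).Reachable ⟨k, hvk⟩ ⟨s, hvs⟩ := hBC v _ _
    obtain ⟨d, -, ⟨hd1, hd2⟩, hd3⟩ := W.exists_boundary_dart
      {x | ∃ hx : x.1 ∈ Sᶜ, (T.induce Sᶜ).connectedComponentMk ⟨x.1, hx⟩ = C}
      ⟨hk, hkC⟩ (fun ⟨hx, _⟩ => hx hs)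
    have hadj : T.Adj d.fst.1 d.snd.1 := d.adj
    refine ⟨d.fst.1, d.snd.1, hd1, ?_, hd2, hadj, d.fst.2, d.snd.2⟩
    by_contra hns
    refine hd3 ⟨hns, ?_⟩
    rw [← hd2]
    exact SimpleGraph.ConnectedComponent.sound
      (SimpleGraph.Adj.reachable (show (T.induce Sᶜ).Adj ⟨d.snd.1, hns⟩ ⟨d.fst.1, hd1⟩ from
        hadj.symm))
  have hsub : ∀ C, ∃ i, ∀ v ∈ A C, v ∈ B i := by
    intro C
    by_cases hC : A C = ∅
    · obtain ⟨i, _⟩ := he
      exact ⟨i, fun v hv => absurd hv (by rw [hC]; exact notMem_empty v)⟩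
    · obtain ⟨v0, hv0⟩ := nonempty_iff_ne_empty.mpr hC
      obtain ⟨c, p, hc, hp, hcC, hcp, _, _⟩ := hbd C v0 hv0
      refine ⟨p, fun v hv => ?_⟩
      obtain ⟨c', p', hc', hp', hcC', hcp', _, hvp'⟩ := hbd C v hv
      rw [(tree_edge_unique hT hS C hc hc' hp hp' hcC hcC' hcp hcp').2]
      exact hvp'
  have hcard : ∀ C, (A C).card ≤ 3 := by
    intro C
    by_cases hC : A C = ∅
    · rw [hC]
      simp
    · obtain ⟨v0, hv0⟩ := nonempty_iff_ne_empty.mpr hC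
      obtain ⟨c, p, hc, hp, hcC, hcp, _, _⟩ := hbd C v0 hv0
      refine le_trans (card_le_card ?_) (h3 p hp c hc hcp.symm)
      intro v hv
      obtain ⟨c', p', hc', hp', hcC', hcp', hvc', hvp'⟩ := hbd C v hv
      obtain ⟨h5, h6⟩ := tree_edge_unique hT hS C hc hc' hp hp' hcC hcC' hcp hcp'
      rw [h5, h6]
      exact mem_inter.mpr ⟨hvp', hvc'⟩
  have hin : ∀ i ∉ S, ∀ v ∈ B i, Kp v → ∃ hi : i ∈ Sᶜ,
      v ∈ A ((T.induce Sᶜ).connectedComponentMk ⟨i, hi⟩) := by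
    intro i hi v hv hk
    exact ⟨hi, (hAm _ v).mpr ⟨hk, i, hi, rfl, hv⟩⟩
  refine main hT ends hloop w hw κ A hcard ?_ ?_ (fun i => (B i).filter Kp) ?_ ?_ ?_ ?_ e f ?_ ?_
    hef
  · intro C v hv
    exact hκ1 v ((hAm C v).mp hv).1
  · intro g u hu v hv C hC
    obtain ⟨i, hi⟩ := hBE g
    have huK : ¬ Kp u := by
      intro h
      rw [hκ1 u h] at hC
      exact absurd hC (by simp)
    have h5 := hκ2 u huK i (hi u hu)
    rw [hC] at h5
    have h6 := Option.some.inj h5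
    by_cases hvK : Kp v
    · right
      exact (hAm C v).mpr ⟨hvK, i, hout u huK i (hi u hu), h6.symm, hi v hv⟩
    · left
      rw [hκ2 v hvK i (hi v hv), h6]
  · intro i
    by_cases hi : i ∈ S
    · exact le_trans (card_filter_le _ _) (h4 i hi)
    · refine le_trans (card_le_card (t := A ((T.induce Sᶜ).connectedComponentMk ⟨i, hi⟩)) ?_)
        (le_trans (hcard _) (by norm_num))
      intro v hv
      obtain ⟨hvB, hvK⟩ := mem_filter.mp hv
      exact (hin i hi v hvB hvK).2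
  · intro g hg
    obtain ⟨i, hi⟩ := hBE g
    refine ⟨i, fun v hv => mem_filter.mpr ⟨hi v hv, ?_⟩⟩
    by_contra hvK
    have h5 := hg v hv
    rw [hκ2 v hvK i (hi v hv)] at h5
    exact absurd h5 (by simp)
  · intro C
    obtain ⟨i, hi⟩ := hsub C
    exact ⟨i, fun v hv => mem_filter.mpr ⟨hi v hv, ((hAm C v).mp hv).1⟩⟩
  · intro v
    by_cases hv : Kp v
    · have h5 : {i | v ∈ (B i).filter Kp} = {i | v ∈ B i} := by
        ext i
        simp only [mem_filter, Set.mem_ofPred_eq]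
        exact ⟨fun h => h.1, fun h => ⟨h, hv⟩⟩
      rw [h5]
      exact hBC v
    · rintro ⟨i, hi⟩
      exact absurd (mem_filter.mp hi).2 hv
  · obtain ⟨i, hi, h5⟩ := he
    exact fun v hv => hκ1 v ⟨i, hi, h5 v hv⟩
  · obtain ⟨i, hi, h5⟩ := hf
    exact fun v hv => hκ1 v ⟨i, hi, h5 v hv⟩

end Pool.Agent.T3P
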